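import Pool.Agent.H59.WaveFinal

open MeasureTheory Set
open H59.Wave

namespace Pool.Agent.Results.MP_96e154_an.NoLinearizedStability

/-- The principle of linearized stability fails at `g`. More precisely: for every `C¹`
hypersurface `M` through `(g, 0)` transversal to `(g, g)` there are smooth data in `M`, compactly
supported in `(-π, π)` and arbitrarily close to `(g, 0)`, with `w₀ ≥ 0`, and `w₁ ≥ 0` wherever
`w₀ = 0`, all of whose weak solutions leave every prescribed ball within every prescribed time. -/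
theorem result :
    ¬ LinearizedStability ∧
    ∀ M : Set X, P ∈ M → IsTransversalAt M P E → ∀ δ > 0, ∀ K : ℝ, ∀ T > 0,
      ∃ p ∈ M, ‖p - P‖ < δ ∧
        (∃ a b : ℝ → ℝ, IsTest a ∧ IsTest b ∧ tsupport a ⊆ Ioo (-Real.pi) Real.pi ∧
          tsupport b ⊆ Ioo (-Real.pi) Real.pi ∧ (∀ x, 0 ≤ a x) ∧ (∀ x, a x = 0 → 0 ≤ b x) ∧
          w p =ᵐ[volume] a ∧ wt p =ᵐ[volume] b) ∧
        ∀ W : ℝ → X, IsWeakSolution (Icc 0 T) p W → ∃ τ ∈ Icc 0 T, K < ‖W τ‖ :=
  ⟨not_linearizedStability, fun _ hP hM _ hδ _ _ hT => smooth_inflation hM hP hδ hT⟩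

end Pool.Agent.Results.MP_96e154_an.NoLinearizedStability
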