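import Pool.Agent.H59.WaveFinal

open MeasureTheory Set
open H59.Wave

namespace Pool.Agent.Results.MP_96e154_an.NoWeakSolution

/-- In every `C¹` hypersurface through `(g, 0)` transversal to `(g, g)` there are data arbitrarily
close to `(g, 0)`, with `w₀ ≥ 0` smooth and `w₁ ≥ 0` wherever `w₀ = 0`, both vanishing outside
`(-π, π)`, that admit no weak solution on any time interval `[0, T]`, `T > 0`. -/
theorem result :
    ∀ M : Set X, P ∈ M → IsTransversalAt M P E → ∀ δ > 0,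
      ∃ p ∈ M, ‖p - P‖ < δ ∧
        (∃ a : ℝ → ℝ, IsTest a ∧ tsupport a ⊆ Ioo (-Real.pi) Real.pi ∧ (∀ x, 0 ≤ a x) ∧
          w p =ᵐ[volume] a) ∧
        (∀ᵐ x, x ∉ Ioo (-Real.pi) Real.pi → wt p x = 0) ∧ (∀ᵐ x, w p x = 0 → 0 ≤ wt p x) ∧
        ∀ T > 0, ¬ ∃ W : ℝ → X, IsWeakSolution (Icc 0 T) p W :=
  fun _ hP hM _ hδ => no_local_solution hM hP hδ

end Pool.Agent.Results.MP_96e154_an.NoWeakSolution
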